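import Pool.Agent.Q250.Braid.LambdaMain
import Pool.Agent.Q250.Braid.Cube

set_option autoImplicit false

namespace Pool.Agent.Results.MP_31c3fe_co.GeodeticTwo

open Pool.Agent.Q250.Braid

variable {B : Type*}

/-- Type `Λ`: simply laced and triangle-free. -/
def IsTypeLambda (M : CoxeterMatrix B) : Prop :=
  (∀ s t : B, s ≠ t → M s t = 2 ∨ M s t = 3) ∧
    ¬ ∃ s t u : B, M s t = 3 ∧ M t u = 3 ∧ M s u = 3

/-- A braid move replaces a factor `s t s` by `t s t`, where `m(s,t) = 3`. -/
def BraidMove (M : CoxeterMatrix B) (β γ : List B) : Prop :=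
  ∃ (u v : List B) (s t : B), M s t = 3 ∧ β = u ++ [s, t, s] ++ v ∧ γ = u ++ [t, s, t] ++ v

/-- The braid class of a word. -/
def BraidClass (M : CoxeterMatrix B) (α : List B) : Type _ :=
  {β : List B // Relation.ReflTransGen (BraidMove M) α β}

/-- The braid graph of a word. -/
def braidGraph (M : CoxeterMatrix B) (α : List B) : SimpleGraph (BraidClass M α) where
  Adj β γ := BraidMove M β.1 γ.1
  symm := ⟨fun _ _ h => Br.symm (fun _ _ h => E3.symm h) h⟩
  loopless := ⟨fun _ h => Br.ne E3_irrefl h rfl⟩

/-- The interval `I(u,v)`: the vertices on shortest `u`-`v` paths of a connected graph. -/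
def interval {V : Type*} (G : SimpleGraph V) (u v : V) : Set V :=
  {w | G.dist u w + G.dist w v = G.dist u v}

/-- The geodetic closure of a set of vertices. -/
def geodeticClosure {V : Type*} (G : SimpleGraph V) (X : Set V) : Set V :=
  {w | ∃ u ∈ X, ∃ v ∈ X, w ∈ interval G u v}

/-- The geodetic number: the least size of a finite set whose geodetic closure is everything. -/
noncomputable def geodeticNumber {V : Type*} (G : SimpleGraph V) : ℕ :=
  sInf {n | ∃ X : Finset V, X.card = n ∧ geodeticClosure G (X : Set V) = Set.univ}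

/-- **Main result.** In type `Λ`, if the braid class of a reduced expression has at least two
elements, then some pair `u, v` satisfies `I(u,v) = [α]`, and the geodetic number of the (finite,
connected) braid graph is `2`. -/
theorem result {B W : Type*} [Group W] (M : CoxeterMatrix B) (cs : CoxeterSystem M W)
    (hM : IsTypeLambda M) (α : List B) (hα : cs.IsReduced α) (h2 : Nontrivial (BraidClass M α)) :
    (braidGraph M α).Connected ∧ (∃ u v, interval (braidGraph M α) u v = Set.univ) ∧
      geodeticNumber (braidGraph M α) = 2 := by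
  classical
  have hT : TriFree M := fun s t u h1 h2 h3 => hM.2 ⟨s, t, u, h1, h2, h3⟩
  have key : (braidGraph M α).Connected ∧
      ∃ (n : ℕ) (ψ : BraidClass M α → Fin n → Bool) (P Q : BraidClass M α),
        (∀ β γ, hammingDist (ψ β) (ψ γ) = (braidGraph M α).dist β γ) ∧
        (braidGraph M α).dist P Q = n := by
    obtain ⟨hc, n, ψ, P, Q, h1, h2, -⟩ :=
      lambda_main hT hα (braidGraph M α) (fun _ _ => Iff.rfl)
    exact ⟨hc, n, ψ, P, Q, h1, h2⟩
  obtain ⟨hc, n, ψ, P, Q, h1, hPQ⟩ := key
  have hint : ∀ w, w ∈ interval (braidGraph M α) P Q := by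
    intro w
    have hall : ∀ i, ψ P i ≠ ψ Q i := by
      have h3 : hammingDist (ψ P) (ψ Q) = n := by rw [h1, hPQ]
      unfold hammingDist at h3
      intro i hi
      have h4 : ({i | ψ P i ≠ ψ Q i} : Finset (Fin n)) ⊆ Finset.univ.erase i := by
        intro j hj
        rw [Finset.mem_erase]
        refine ⟨?_, Finset.mem_univ _⟩
        rintro rfl
        simp at hj
        exact hj hi
      have h5 := Finset.card_le_card h4
      rw [h3, Finset.card_erase_of_mem (Finset.mem_univ _), Finset.card_univ, Fintype.card_fin] at h5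
      have : 0 < n := i.pos
      omega
    change (braidGraph M α).dist P w + (braidGraph M α).dist w Q = (braidGraph M α).dist P Q
    rw [hPQ, ← h1, ← h1]
    unfold hammingDist
    have hdisj : Disjoint ({i | ψ P i ≠ ψ w i} : Finset (Fin n))
        ({i | ψ w i ≠ ψ Q i} : Finset (Fin n)) := by
      rw [Finset.disjoint_left]
      intro i hi hi'
      simp only [Finset.mem_filter, Finset.mem_univ, true_and] at hi hi'
      have := hall i
      revert hi hi' this
      cases ψ P i <;> cases ψ w i <;> cases ψ Q i <;> simp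
    rw [← Finset.card_union_of_disjoint hdisj]
    have : (({i | ψ P i ≠ ψ w i} : Finset (Fin n)) ∪ ({i | ψ w i ≠ ψ Q i} : Finset (Fin n))) =
        Finset.univ := by
      ext i
      simp only [Finset.mem_union, Finset.mem_filter, Finset.mem_univ, true_and, iff_true]
      have := hall i
      revert this
      cases ψ P i <;> cases ψ w i <;> cases ψ Q i <;> simp
    rw [this, Finset.card_univ, Fintype.card_fin]
  refine ⟨hc, ⟨P, Q, Set.eq_univ_of_forall hint⟩, ?_⟩
  have hne : P ≠ Q := by
    rintro rfl
    obtain ⟨x, hx⟩ := exists_ne P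
    have h3 := hint x
    unfold interval at h3
    rw [Set.mem_ofPred_eq, SimpleGraph.dist_self] at h3
    have h4 : (braidGraph M α).dist P x = 0 := by omega
    exact hx ((hc.preconnected P x).dist_eq_zero_iff.mp h4).symm
  apply le_antisymm
  · apply Nat.sInf_le
    refine ⟨{P, Q}, Finset.card_pair hne, ?_⟩
    apply Set.eq_univ_of_forall
    intro w
    exact ⟨P, by simp, Q, by simp, hint w⟩
  · apply le_csInf
    · refine ⟨2, {P, Q}, Finset.card_pair hne, ?_⟩
      apply Set.eq_univ_of_forall
      intro w
      exact ⟨P, by simp, Q, by simp, hint w⟩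
    · rintro k ⟨X, hX, hcl⟩
      by_contra hk
      have hk1 : X.card ≤ 1 := by omega
      rw [Finset.card_le_one] at hk1
      obtain ⟨x, y, hxy⟩ := h2.exists_pair_ne
      have hx : x ∈ geodeticClosure (braidGraph M α) (X : Set _) := hcl ▸ Set.mem_univ x
      have hy : y ∈ geodeticClosure (braidGraph M α) (X : Set _) := hcl ▸ Set.mem_univ y
      obtain ⟨u, hu, v, hv, huv⟩ := hx
      obtain ⟨u', hu', v', hv', huv'⟩ := hy
      have e1 : v = u := hk1 _ hv _ hu
      have e2 : u' = u := hk1 _ hu' _ hu
      have e3 : v' = u := hk1 _ hv' _ hu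
      subst e1 e2 e3
      unfold interval at huv huv'
      rw [Set.mem_ofPred_eq, SimpleGraph.dist_self] at huv huv'
      have d1 : (braidGraph M α).dist v' x = 0 := by omega
      have d2 : (braidGraph M α).dist v' y = 0 := by omega
      have f1 := (hc.preconnected v' x).dist_eq_zero_iff.mp d1
      have f2 := (hc.preconnected v' y).dist_eq_zero_iff.mp d2
      exact hxy (f1.symm.trans f2)

end Pool.Agent.Results.MP_31c3fe_co.GeodeticTwo
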